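import Mathlib
import Pool.Agent.H200G.Core

set_option autoImplicit false

/-!
# Fat points of the plane: arbitrary large multiplicities and a union of families

The case `r = 2` of the question.

Arbitrary multiplicities at some points, and a union of families at the others. The multiplicities at a
set `S` of points are a UNION OF FAMILIES (`Pool.Agent.H200G.Un`) if the points of `S` can be divided into
groups, of any number and any sizes, such that in every group the sum of the squares of the multiplicities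
is at least `2 ^ 29` times the number of the different nonzero values times the square of the largest one.
`CoreG d w` (`Pool.Agent.H200G.CoreG`): for some `μ` and some set `C` of points, which may have ARBITRARY large
multiplicities, all other multiplicities are at most `μ` and a union of families, and one of the following
holds:
* (`WideG`) `C` has three points, with multiplicities `w (p 2) ≤ w (p 1) ≤ w (p 0)`,
  `w (p 0) + w (p 1) + w (p 2) ≤ d` and `w (p 0) + 2 ^ 28 (μ + 1) ≤ d`;
* (`ChainG`) `C` consists of a point `p` and a set `A` of points on a chain of curves of degrees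
  `E 0 ≥ E 1 ≥ … ≥ 1`, i.e. with `w i ≤ m` for `i ∈ A`,
  `w p + (E 0 + … + E (m - 1)) + 2 ^ 34 (μ + 1) E 0 ≤ d`, and for `k < m`, if `k = 0` or `E k < E (k - 1)`,
  `∑_A max (w i - k) 0 + E k (E 0 + … + E (k - 1)) + 2 ^ 38 (μ + 1) E k (E 0 + E k g k) ≤ E k d`, where
  `g k` is the number of the `i ∈ A` with `k < w i ≤ k + 2 ^ 33 (μ + 1)`;
* (`PackG`) for some `0 < η ≤ 1` and `m1`: `w i ≤ m1` on `C`,
  `∑_C (w i + 2 ^ 24 (μ + 1) / η) ^ 2 + (7 m1 + 2 ^ 27 (μ + 1) / η) d ≤ d ^ 2` and
  `∑_C w i (w i + 1) ≤ (1 - η) d ^ 2`.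
`CoreFam d w` (`Pool.Agent.H200G.CoreFam`): `CoreG d w`; or there is `(e; v)` with `CoreG e v`, `e ≥ d`, `v ≤ w`
and `(e + 2).choose 2 ≤ ∑ (v i + 1).choose 2`; or there is `(e; v)` with `CoreG e v`, `e ≤ d`, on at least
these points, with `w ≤ v` and `∑ (v i + 1).choose 2 ≤ (e + 2).choose 2`. All constants are explicit; there
is no condition on the sum of the squares in comparison to `d ^ 2`.

If `k` general points of the complex projective plane with the multiplicities `m 1, …, m k` fail to
impose maximal conditions in degree `d`, then not `CoreFam d m`. In particular, if `m (p 0) ≥ m (p 1) ≥ m (p 2)`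
are arbitrary multiplicities of three points with `m (p 0) + m (p 1) + m (p 2) ≤ d` and every nonzero value
at the other points is taken at least `2 ^ 29` times there, then `d < m (p 0) + 2 ^ 28 (μ + 1)` for the
maximum `μ` of the others.
-/

namespace Pool.Agent.Results.MP_1dafdd_ag.PlaneCoreFamilies

open Finset MvPolynomial Pool.Agent.H200G

/-- `V_d(Γ)`: the forms of degree `d` vanishing to order at least `m i` at the points
`(P i 0 : P i 1 : 1)` of the plane. -/
noncomputable def forms {k : ℕ} (P : Fin k → Fin 2 → ℂ) (d : ℕ) (m : Fin k → ℕ) :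
    Submodule ℂ (MvPolynomial (Fin 3) ℂ) :=
  homogeneousSubmodule (Fin 3) ℂ d ⊓ Submodule.restrictScalars ℂ
    (⨅ i : Fin k, Ideal.span
      ({X 0 - C (P i 0) * X 2, X 1 - C (P i 1) * X 2} : Set (MvPolynomial (Fin 3) ℂ)) ^ (m i))

/-- `Γ` imposes maximal conditions in degree `d`. -/
def Maximal {k : ℕ} (P : Fin k → Fin 2 → ℂ) (d : ℕ) (m : Fin k → ℕ) : Prop :=
  (Module.finrank ℂ ↥(forms P d m) : ℤ) =
    max 0 (((d + 2).choose 2 : ℤ) - ∑ i, ((m i + 1).choose 2 : ℤ))

/-- For general points `Γ` fails to impose maximal conditions in degree `d`: this is so on a dense open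
set, equivalently there is no dense open set on which it imposes maximal conditions. -/
def Fails {k : ℕ} (d : ℕ) (m : Fin k → ℕ) : Prop :=
  ¬ ∃ F : MvPolynomial (Fin k × Fin 2) ℂ, F ≠ 0 ∧ ∀ P : Fin k → Fin 2 → ℂ,
    eval (fun ij : Fin k × Fin 2 => P ij.1 ij.2) F ≠ 0 → Maximal P d m

theorem of_gen {k d : ℕ} {m : Fin k → ℕ} (h : Fails d m) : ¬ Pool.Agent.H200P.GenExp d m := by
  intro hg
  apply h
  obtain ⟨F, hF, hF'⟩ := Pool.Agent.TH442.NF.to_open (d := d) (w := m) hg
  refine ⟨F.map (algebraMap ℚ ℂ), Pool.Agent.H932R3.map_ne_zero_of hF, fun P hP => ?_⟩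
  rw [eval_map] at hP
  have h1 : Module.finrank ℂ ↥(forms P d m) =
      Nat.choose (d + 2) 2 - ∑ i, Nat.choose (m i + 1) 2 := hF' (L := ℂ) P hP
  have h2 : ∑ i, ((m i + 1).choose 2 : ℤ) = ((∑ i, Nat.choose (m i + 1) 2 : ℕ) : ℤ) := by
    push_cast
    rfl
  unfold Maximal
  rw [h1, h2]
  omega

theorem result (k d : ℕ) (m : Fin k → ℕ) (hf : Fails d m) :
    ¬ CoreFam d m ∧
    ∀ (p : Fin 3 → Fin k) (μ : ℕ), Function.Injective p → m (p 2) ≤ m (p 1) → m (p 1) ≤ m (p 0) →
      m (p 0) + m (p 1) + m (p 2) ≤ d → (∀ i, (∀ j, p j ≠ i) → m i ≤ μ) →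
      (∀ i, (∀ j, p j ≠ i) → m i ≠ 0 →
        2 ^ 29 ≤ (univ.filter fun l => (∀ j, p j ≠ l) ∧ m l = m i).card) →
      d < m (p 0) + 2 ^ 28 * (μ + 1) := by
  classical
  refine ⟨fun h => of_gen hf (coreFam_all h), fun p μ h1 h2 h3 h4 h5 h6 => ?_⟩
  by_contra hcon
  refine of_gen hf (coreG_all (Or.inl ⟨p, μ, h1, h2, h3, h5, p_repUn ?_, h4, not_lt.1 hcon⟩))
  intro i hi hi0
  have hnot : ∀ l, (∀ j, p j ≠ l) ↔ l ∈ univ \ univ.image p := fun l => by
    rw [mem_sdiff, mem_image]
    simp
  have e1 : (univ.filter fun l => (∀ j, p j ≠ l) ∧ m l = m i) =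
      (univ \ univ.image p).filter fun l => m l = m i := by
    ext l
    rw [mem_filter, mem_filter, ← hnot]
    simp
  rw [← e1]
  exact h6 i ((hnot i).2 hi) hi0

end Pool.Agent.Results.MP_1dafdd_ag.PlaneCoreFamilies
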