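import Mathlib
import Pool.Agent.H200M.Near2

set_option autoImplicit false

/-!
# Fat points of the plane which fail to impose maximal conditions are critical outside chains

The case `r = 2` of the question.

A class `(d; w)` is CRITICAL OUTSIDE CHAINS (`Pool.Agent.H200M.TightCh c`, for a function `c` with
positive values) if for every `ε > 0`, `t ≥ 1`, every point `p` and every set `A` of other points with
arbitrary multiplicities on a chain of curves of degrees `E 0 ≥ E 1 ≥ … ≥ 1` with margin `t`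
(`Pool.Agent.H200M.ChainCore`), i.e. with `w i ≤ m` for `i ∈ A` and
* `w p + (E 0 + … + E (m - 1)) + 2 ^ 27 t E 0 ≤ d`,
* for `k < m`, if `k = 0` or `E k < E (k - 1)`:
  `∑_A max (w i - k) 0 + E k (E 0 + … + E (k - 1)) + 2 ^ 31 t E k (E 0 + E k g k) ≤ E k d`,
  where `g k` is the number of the `i ∈ A` with `k < w i ≤ k + 2 ^ 26 t`,
such that `w i ≤ c(ε) t` for all other points `i`, the volume `X = (d + 1) (d + 2) - ∑_{A ∪ p} w i (w i + 1)`
left by the points of the chain is filled by the large ones of the other multiplicities up to the part `ε`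
(`Pool.Agent.H200M.Tight`): all other multiplicities together have `|X - ∑ w i (w i + 1)| < ε X`; and for every `μ`
such that all nonzero values `≤ μ` at the other points are taken at least `2 ^ 29` times
there, or the number `k` of the values `≤ μ` satisfies `(k + 1) μ ^ 2 ≤ c(ε) X`, the other
multiplicities `> c(ε) μ` have `∑ w i ^ 2 > (1 - ε) X` and those `≤ c(ε) μ` have `∑ w i ^ 2 < ε X`.

There is a function `c` with positive values such that: if `k` general points of the complex projective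
plane with the multiplicities `m 1, …, m k` fail to impose maximal conditions in degree `d`, then
`(d; m)` is critical outside chains. In particular (`E = 3, …, 3, 1, …, 1`), for every `ε > 0`, `t ≥ 1`,
`m 1 ≥ … ≥ m k` and `a < k` such that the multiplicities after `m a` are at most `c(ε) t` and `m (a + 1) ≤ t`,
one of the following holds: `m i + m j + m l + 2 ^ 34 t > d` for some `i, j, l`;
`m 1 + … + m a + 2 ^ 35 t (1 + g) > 3 d`, `g` the number of the `i ≤ a` with `m i ≤ 2 ^ 26 t`; or the volume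
left by the first `a + 1` points is filled by the large ones of the others up to the part `ε`.

Without any exception: for all `ε > 0` and all `t`, `p`, `A` as above such that all
other multiplicities are at most `c(ε) t`, the dimension of the space of forms is at most
`max (χ, ε X / 2)` (`Pool.Agent.H200M.BoundCh`); here `X / 2` is the number of forms left by the chain,
as expected.
-/

namespace Pool.Agent.Results.MP_1dafdd_ag.PlaneCurveChains

open Finset MvPolynomial Pool.Agent.H200M

/-- `V_d(Γ)`: the forms of degree `d` vanishing to order at least `m i` at the points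
`(P i 0 : P i 1 : 1)` of the plane. -/
noncomputable def forms {k : ℕ} (P : Fin k → Fin 2 → ℂ) (d : ℕ) (m : Fin k → ℕ) :
    Submodule ℂ (MvPolynomial (Fin 3) ℂ) :=
  homogeneousSubmodule (Fin 3) ℂ d ⊓ Submodule.restrictScalars ℂ
    (⨅ i : Fin k, Ideal.span
      ({X 0 - C (P i 0) * X 2, X 1 - C (P i 1) * X 2} : Set (MvPolynomial (Fin 3) ℂ)) ^ (m i))

/-- `Γ` imposes maximal conditions in degree `d`. -/
def Maximal {k : ℕ} (P : Fin k → Fin 2 → ℂ) (d : ℕ) (m : Fin k → ℕ) : Prop :=
  (Module.finrank ℂ ↥(forms P d m) : ℤ) =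
    max 0 (((d + 2).choose 2 : ℤ) - ∑ i, ((m i + 1).choose 2 : ℤ))

/-- For general points `Γ` fails to impose maximal conditions in degree `d`: this is so on a dense open
set, equivalently there is no dense open set on which it imposes maximal conditions. -/
def Fails {k : ℕ} (d : ℕ) (m : Fin k → ℕ) : Prop :=
  ¬ ∃ F : MvPolynomial (Fin k × Fin 2) ℂ, F ≠ 0 ∧ ∀ P : Fin k → Fin 2 → ℂ,
    eval (fun ij : Fin k × Fin 2 => P ij.1 ij.2) F ≠ 0 → Maximal P d m

theorem of_gen {k d : ℕ} {m : Fin k → ℕ} (h : Fails d m) : ¬ Pool.Agent.H200P.GenExp d m := by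
  intro hg
  apply h
  obtain ⟨F, hF, hF'⟩ := Pool.Agent.TH442.NF.to_open (d := d) (w := m) hg
  refine ⟨F.map (algebraMap ℚ ℂ), Pool.Agent.H932R3.map_ne_zero_of hF, fun P hP => ?_⟩
  rw [eval_map] at hP
  have h1 : Module.finrank ℂ ↥(forms P d m) =
      Nat.choose (d + 2) 2 - ∑ i, Nat.choose (m i + 1) 2 := hF' (L := ℂ) P hP
  have h2 : ∑ i, ((m i + 1).choose 2 : ℤ) = ((∑ i, Nat.choose (m i + 1) 2 : ℕ) : ℤ) := by
    push_cast
    rfl
  unfold Maximal
  rw [h1, h2]
  omega

/-- **Main result.** -/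
theorem result : ∃ c : ℝ → ℝ, (∀ ε, 0 < ε → 0 < c ε) ∧ ∀ (k d : ℕ) (m : Fin k → ℕ),
    (∃ F : MvPolynomial (Fin k × Fin 2) ℂ, F ≠ 0 ∧ ∀ P : Fin k → Fin 2 → ℂ,
      eval (fun ij : Fin k × Fin 2 => P ij.1 ij.2) F ≠ 0 →
        BoundCh c d m (Module.finrank ℂ ↥(forms P d m))) ∧
    (Fails d m → TightCh c d m ∧
      ∀ (ε : ℝ) (t a : ℕ) (ha : a < k), 0 < ε → 1 ≤ t → Antitone m → 3 ≤ k → m ⟨a, ha⟩ ≤ t →
        (∀ i : Fin k, a < i.1 → (m i : ℝ) ≤ c ε * t) →
        (∃ i j l : Fin k, i ≠ j ∧ i ≠ l ∧ j ≠ l ∧ d < m i + m j + m l + 2 ^ 34 * t) ∨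
        3 * d < ∑ i ∈ univ.filter (fun i : Fin k => i.1 < a), m i + 2 ^ 35 * t *
          (1 + (univ.filter fun i : Fin k => i.1 < a ∧ m i ≤ 2 ^ 26 * t).card) ∨
        Tight (c ε) ε d m (univ.filter fun i : Fin k => i.1 ≤ a)) := by
  obtain ⟨c, hc, H, HB⟩ := dimCh_all
  refine ⟨c, hc, fun k d m => ⟨?_, fun hf => ?_⟩⟩
  · obtain ⟨F, hF, hF'⟩ := HB.open1 d m
    refine ⟨F.map (algebraMap ℚ ℂ), Pool.Agent.H932R3.map_ne_zero_of hF, fun P hP => ?_⟩
    rw [eval_map] at hP
    exact hF' ℂ P hP
  have h0 : TightCh c d m := by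
    by_contra hcon
    exact of_gen hf (H m hcon)
  refine ⟨h0, fun ε t a ha hε ht h1 h2 h3 h4 => ?_⟩
  by_contra hcon
  push Not at hcon
  obtain ⟨h5, h6, h7⟩ := hcon
  have e1 : insert (⟨a, ha⟩ : Fin k) (univ.filter fun i : Fin k => i.1 < a) =
      univ.filter fun i : Fin k => i.1 ≤ a := by
    ext i
    simp only [mem_insert, mem_filter, mem_univ, true_and, Fin.ext_iff]
    omega
  apply h7
  rw [← e1]
  refine h0 ε t ⟨a, ha⟩ _ hε ht (core_ac h1 h2 ha h3 h5 h6) (fun i hi => h4 i ?_)
  rw [e1, mem_filter] at hi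
  by_contra h8
  exact hi ⟨mem_univ _, not_lt.1 h8⟩

end Pool.Agent.Results.MP_1dafdd_ag.PlaneCurveChains
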