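import Mathlib
import Pool.Agent.H200G.All

set_option autoImplicit false

/-!
# Fat points of the plane whose multiplicities are unions of families impose maximal conditions

The case `r = 2` of the question.

The multiplicities `m` are a UNION OF FAMILIES (`Pool.Agent.H200G.Families`) if the points can be divided
into groups, of any number and any sizes, such that in every group the sum of the squares of the
multiplicities is at least `2 ^ 29` times the number of the different nonzero values times the square
of the largest one; e.g. if every nonzero value occurs at least `2 ^ 29` times.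
`Fam d m` (`Pool.Agent.H200G.Fam`): `m` is a union of families; or there is a union `v ≤ m` of families
with `(d + 2).choose 2 ≤ ∑ (v i + 1).choose 2`; or a union `v` of families on at least these points with
`m ≤ v` and `∑ (v i + 1).choose 2 ≤ (d + 2).choose 2`.

If `k` general points of the complex projective plane with the multiplicities `m 1, …, m k` fail to
impose maximal conditions in degree `d`, then not `Fam d m`. In particular the points whose
multiplicity occurs at least `2 ^ 29` times impose less than `(d + 2).choose 2` conditions, there are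
values which occur less than `2 ^ 29` times, and
`(d + 2).choose 2 < ∑ (m i + 1).choose 2 + 2 ^ 29 ∑ (a + 1).choose 2`, where `a` runs through these values.
-/

namespace Pool.Agent.Results.MP_1dafdd_ag.PlaneFamilies

open Finset MvPolynomial Pool.Agent.H200G

/-- `V_d(Γ)`: the forms of degree `d` vanishing to order at least `m i` at the points
`(P i 0 : P i 1 : 1)` of the plane. -/
noncomputable def forms {k : ℕ} (P : Fin k → Fin 2 → ℂ) (d : ℕ) (m : Fin k → ℕ) :
    Submodule ℂ (MvPolynomial (Fin 3) ℂ) :=
  homogeneousSubmodule (Fin 3) ℂ d ⊓ Submodule.restrictScalars ℂ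
    (⨅ i : Fin k, Ideal.span
      ({X 0 - C (P i 0) * X 2, X 1 - C (P i 1) * X 2} : Set (MvPolynomial (Fin 3) ℂ)) ^ (m i))

/-- `Γ` imposes maximal conditions in degree `d`. -/
def Maximal {k : ℕ} (P : Fin k → Fin 2 → ℂ) (d : ℕ) (m : Fin k → ℕ) : Prop :=
  (Module.finrank ℂ ↥(forms P d m) : ℤ) =
    max 0 (((d + 2).choose 2 : ℤ) - ∑ i, ((m i + 1).choose 2 : ℤ))

/-- For general points `Γ` fails to impose maximal conditions in degree `d`: this is so on a dense open
set, equivalently there is no dense open set on which it imposes maximal conditions. -/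
def Fails {k : ℕ} (d : ℕ) (m : Fin k → ℕ) : Prop :=
  ¬ ∃ F : MvPolynomial (Fin k × Fin 2) ℂ, F ≠ 0 ∧ ∀ P : Fin k → Fin 2 → ℂ,
    eval (fun ij : Fin k × Fin 2 => P ij.1 ij.2) F ≠ 0 → Maximal P d m

theorem of_gen {k d : ℕ} {m : Fin k → ℕ} (h : Fails d m) : ¬ Pool.Agent.H200P.GenExp d m := by
  intro hg
  apply h
  obtain ⟨F, hF, hF'⟩ := Pool.Agent.TH442.NF.to_open (d := d) (w := m) hg
  refine ⟨F.map (algebraMap ℚ ℂ), Pool.Agent.H932R3.map_ne_zero_of hF, fun P hP => ?_⟩
  rw [eval_map] at hP
  have h1 : Module.finrank ℂ ↥(forms P d m) =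
      Nat.choose (d + 2) 2 - ∑ i, Nat.choose (m i + 1) 2 := hF' (L := ℂ) P hP
  have h2 : ∑ i, ((m i + 1).choose 2 : ℤ) = ((∑ i, Nat.choose (m i + 1) 2 : ℕ) : ℤ) := by
    push_cast
    rfl
  unfold Maximal
  rw [h1, h2]
  omega

/-- The points whose multiplicity occurs at least `2 ^ 29` times. -/
def often {k : ℕ} (m : Fin k → ℕ) : Finset (Fin k) :=
  univ.filter fun i => 2 ^ 29 ≤ (univ.filter fun j => m j = m i).card

theorem result (k d : ℕ) (m : Fin k → ℕ) (hf : Fails d m) :
    ¬ Fam d m ∧
    ∑ i ∈ often m, (m i + 1).choose 2 < (d + 2).choose 2 ∧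
    (∃ i, m i ≠ 0 ∧ (univ.filter fun j => m j = m i).card < 2 ^ 29) ∧
    (d + 2).choose 2 < ∑ i, (m i + 1).choose 2 +
      2 ^ 29 * ∑ a ∈ (univ \ often m).image m, (a + 1).choose 2 := by
  refine ⟨fun h => of_gen hf (fam_all h), ?_, ?_, ?_⟩
  · by_contra hcon
    exact of_gen hf (fam_all (rep_fam (Or.inl (not_lt.1 hcon))))
  · by_contra hcon
    push Not at hcon
    exact of_gen hf (families_all (families_of hcon) d)
  · by_contra hcon
    exact of_gen hf (fam_all (rep_fam (Or.inr (not_lt.1 hcon))))

end Pool.Agent.Results.MP_1dafdd_ag.PlaneFamilies
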