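import Mathlib
import Pool.Agent.H200M.Near2

set_option autoImplicit false

/-!
# Fat points of the plane which fail to impose maximal conditions are critical outside three points

The case `r = 2` of the question.


(1) For every `ε > 0` there is `c > 0` such that: if `k` general points of the complex projective plane with
the multiplicities `m` fail to impose maximal conditions in degree `d`, then for all three points `p` with
(arbitrary) `m (p 2) ≤ m (p 1) ≤ m (p 0)`, `m (p 0) + m (p 1) + m (p 2) ≤ d`, such that `m i ≤ c (d - m (p 0))`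
for all others, the volume `X = (d + 1) (d + 2) - ∑_j m (p j) (m (p j) + 1)` is filled up to the part `ε` by
the large ones of the other multiplicities: all others together have `|X - ∑ m i (m i + 1)| < ε X`, those
`> c X ^ (1 / 3)` have `∑ m i ^ 2 > (1 - ε) X`, those
`≤ c X ^ (1 / 3)` have `∑ m i ^ 2 < ε X`; and the same with `c μ` instead of `c X ^ (1 / 3)` for all `μ ≥ 0`
such that all nonzero values `≤ μ` at the other points are taken at least `2 ^ 29` times there, or the
number `k` of the values `≤ μ` satisfies `(k + 1) μ ^ 2 ≤ c X` (`Pool.Agent.H200M.Few`).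

(2) Without any exception the dimension of the space of forms of degree `d` with these multiplicities at
general points is at most `max (χ, ε X / 2)`, `χ` the expected number; here `X / 2` is the number of forms
left by the three points, as expected.
-/

namespace Pool.Agent.Results.MP_1dafdd_ag.PlaneThreeArbitrary

open Finset MvPolynomial Pool.Agent.H200M

/-- `V_d(Γ)`: the forms of degree `d` vanishing to order at least `m i` at the points
`(P i 0 : P i 1 : 1)` of the plane. -/
noncomputable def forms {k : ℕ} (P : Fin k → Fin 2 → ℂ) (d : ℕ) (m : Fin k → ℕ) :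
    Submodule ℂ (MvPolynomial (Fin 3) ℂ) :=
  homogeneousSubmodule (Fin 3) ℂ d ⊓ Submodule.restrictScalars ℂ
    (⨅ i : Fin k, Ideal.span
      ({X 0 - C (P i 0) * X 2, X 1 - C (P i 1) * X 2} : Set (MvPolynomial (Fin 3) ℂ)) ^ (m i))

/-- `Γ` imposes maximal conditions in degree `d`. -/
def Maximal {k : ℕ} (P : Fin k → Fin 2 → ℂ) (d : ℕ) (m : Fin k → ℕ) : Prop :=
  (Module.finrank ℂ ↥(forms P d m) : ℤ) =
    max 0 (((d + 2).choose 2 : ℤ) - ∑ i, ((m i + 1).choose 2 : ℤ))

/-- For general points `Γ` fails to impose maximal conditions in degree `d`: this is so on a dense open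
set, equivalently there is no dense open set on which it imposes maximal conditions. -/
def Fails {k : ℕ} (d : ℕ) (m : Fin k → ℕ) : Prop :=
  ¬ ∃ F : MvPolynomial (Fin k × Fin 2) ℂ, F ≠ 0 ∧ ∀ P : Fin k → Fin 2 → ℂ,
    eval (fun ij : Fin k × Fin 2 => P ij.1 ij.2) F ≠ 0 → Maximal P d m

theorem of_gen {k d : ℕ} {m : Fin k → ℕ} (h : Fails d m) : ¬ Pool.Agent.H200P.GenExp d m := by
  intro hg
  apply h
  obtain ⟨F, hF, hF'⟩ := Pool.Agent.TH442.NF.to_open (d := d) (w := m) hg
  refine ⟨F.map (algebraMap ℚ ℂ), Pool.Agent.H932R3.map_ne_zero_of hF, fun P hP => ?_⟩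
  rw [eval_map] at hP
  have h1 : Module.finrank ℂ ↥(forms P d m) =
      Nat.choose (d + 2) 2 - ∑ i, Nat.choose (m i + 1) 2 := hF' (L := ℂ) P hP
  have h2 : ∑ i, ((m i + 1).choose 2 : ℤ) = ((∑ i, Nat.choose (m i + 1) 2 : ℕ) : ℤ) := by
    push_cast
    rfl
  unfold Maximal
  rw [h1, h2]
  omega

/-- **Main result.** -/
theorem result (ε : ℝ) (hε : 0 < ε) : ∃ c : ℝ, 0 < c ∧
    ∀ (k d : ℕ) (m : Fin k → ℕ) (p : Fin 3 → Fin k), Function.Injective p →
      m (p 2) ≤ m (p 1) → m (p 1) ≤ m (p 0) → m (p 0) + m (p 1) + m (p 2) ≤ d →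
      (∀ i, (∀ j, p j ≠ i) → (m i : ℝ) ≤ c * ((d : ℝ) - m (p 0))) →
      (∃ F : MvPolynomial (Fin k × Fin 2) ℂ, F ≠ 0 ∧ ∀ P : Fin k → Fin 2 → ℂ,
        eval (fun ij : Fin k × Fin 2 => P ij.1 ij.2) F ≠ 0 →
          (Module.finrank ℂ ↥(forms P d m) : ℝ) ≤
            max (((d + 2).choose 2 : ℝ) - ∑ i, ((m i + 1).choose 2 : ℝ))
              (ε * XA m (univ.image p) d / 2)) ∧
      (Fails d m →
        |XA m (univ.image p) d - ∑ i ∈ univ \ univ.image p, (m i : ℝ) * (m i + 1)| <
          ε * XA m (univ.image p) d ∧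
        ((1 - ε) * XA m (univ.image p) d < ∑ i ∈ (univ \ univ.image p).filter
            (fun i => c * XA m (univ.image p) d ^ (1 / 3 : ℝ) < (m i : ℝ)), (m i : ℝ) ^ 2 ∧
          ∑ i ∈ (univ \ univ.image p).filter
            (fun i => (m i : ℝ) ≤ c * XA m (univ.image p) d ^ (1 / 3 : ℝ)), (m i : ℝ) ^ 2 <
            ε * XA m (univ.image p) d) ∧
        ∀ μ : ℝ, 0 ≤ μ → Few m (univ \ univ.image p) μ (c * XA m (univ.image p) d) →
          (1 - ε) * XA m (univ.image p) d <
              ∑ i ∈ (univ \ univ.image p).filter (fun i => c * μ < (m i : ℝ)), (m i : ℝ) ^ 2 ∧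
            ∑ i ∈ (univ \ univ.image p).filter (fun i => (m i : ℝ) ≤ c * μ), (m i : ℝ) ^ 2 <
              ε * XA m (univ.image p) d) := by
  obtain ⟨c, hc, H⟩ := main3_both_dim ε hε
  refine ⟨c, hc, fun k d m p h1 h2 h3 h4 h5 => ⟨?_, fun hf => ⟨?_, ?_, fun μ h6 h7 => ?_⟩⟩⟩
  · obtain ⟨F, hF, hF'⟩ := GenLe.open (@H k d m p h1 h2 h3 h4 h5).2
    refine ⟨F.map (algebraMap ℚ ℂ), Pool.Agent.H932R3.map_ne_zero_of hF, fun P hP => ?_⟩
    rw [eval_map] at hP
    have h6 := hF' ℂ P hP
    rw [chi_cast] at h6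
    exact h6
  · by_contra hcon
    rw [not_lt] at hcon
    exact of_gen hf ((@H k d m p h1 h2 h3 h4 h5).1 (Or.inl hcon))
  · by_contra hcon
    rw [not_and_or, not_lt, not_lt] at hcon
    refine of_gen hf ((@H k d m p h1 h2 h3 h4 h5).1 ?_)
    rcases hcon with h | h
    · exact Or.inr (Or.inl h)
    · exact Or.inr (Or.inr (Or.inl h))
  · by_contra hcon
    rw [not_and_or, not_lt, not_lt] at hcon
    exact of_gen hf ((@H k d m p h1 h2 h3 h4 h5).1 (Or.inr (Or.inr (Or.inr ⟨μ, h6, h7, hcon⟩))))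

end Pool.Agent.Results.MP_1dafdd_ag.PlaneThreeArbitrary
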